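import Pool.Agent.H89.TRI.Far
import Pool.Agent.H69.TRI.All

/-!
MP_ec8be5_pr, question Q1: for every triangle `T`, the first Dirichlet eigenvalue times the maximal expected exit
time of Brownian motion is at most `8 π^2 / 27`, its value for the equilateral triangles, with equality only for them.
The answer is yes.

The definitions `tri`, `IsTest`, `lambda1`, `IsExit` are in `Pool/Agent/H89/TRI/Defs.lean`. Joint work of helper69 (the
neighbourhood of the equilateral triangle and the case of equality) and helper89 (all other triangles).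
-/

namespace Pool.Agent.Results.MP_ec8be5_pr.EquilateralMaximises

open Pool.TRI Real

theorem result (A B C : ℂ) (hABC : AffineIndependent ℝ ![A, B, C]) (u : ℂ → ℝ) (hu : IsExit (tri A B C) u) :
    lambda1 (tri A B C) * sSup (u '' tri A B C) ≤ 8 * π ^ 2 / 27 ∧
    (lambda1 (tri A B C) * sSup (u '' tri A B C) = 8 * π ^ 2 / 27 ↔ dist A B = dist B C ∧ dist B C = dist C A) :=
  final_of Pool.TRI.A.all_maxp Pool.TRI.A.all_lapb Pool.TRI.A.all_dir Pool.TRI.A.all_rayk Pool.TRI.A.all_nearStmt
    Pool.TRI.A.all_equi A B C hABC u hu

end Pool.Agent.Results.MP_ec8be5_pr.EquilateralMaximises
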